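import Pool.Agent.Q72.MX.Stm
import Pool.Agent.W996.EC.QFinal
import Pool.Agent.W973.EC.Dich

/-!
Project MX, job EX: exponential sums on a curve.
-/

set_option autoImplicit false

namespace Pool.Agent.Q211.MX

open Filter Topology Polynomial Pool.Agent.Q72.MX Pool.Agent.W996.EC

/-! ### Regular functions -/

theorem reg_const {T : Set (ℂ × ℂ)} (c : ℂ) : Reg T (fun _ => c) :=
  ⟨C (C c), 1, fun p _ => by simp [evalEval]⟩

theorem reg_add {T : Set (ℂ × ℂ)} {g g' : ℂ × ℂ → ℂ} (h : Reg T g) (h' : Reg T g') :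
    Reg T (fun p => g p + g' p) := by
  obtain ⟨A, B, hAB⟩ := h
  obtain ⟨A', B', hAB'⟩ := h'
  refine ⟨A * B' + B * A', B * B', fun p hp => ⟨?_, ?_⟩⟩
  · rw [evalEval_mul]
    exact mul_ne_zero (hAB p hp).1 (hAB' p hp).1
  · change g p + g' p = _
    rw [evalEval_mul, evalEval_add, evalEval_mul, evalEval_mul, (hAB p hp).2, (hAB' p hp).2,
      div_add_div _ _ (hAB p hp).1 (hAB' p hp).1]

theorem reg_sum {T : Set (ℂ × ℂ)} {ι : Type*} (s : Finset ι) {g : ι → ℂ × ℂ → ℂ}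
    (h : ∀ i ∈ s, Reg T (g i)) : Reg T (fun p => ∑ i ∈ s, g i p) := by
  classical
  induction s using Finset.induction_on with
  | empty =>
    simp only [Finset.sum_empty]
    exact reg_const 0
  | insert i s hi ih =>
    simp only [Finset.sum_insert hi]
    exact reg_add (h i (Finset.mem_insert_self i s)) (ih fun j hj =>
      h j (Finset.mem_insert_of_mem hj))

theorem reg_dt {b : ℕ} {T : Set (ℂ × ℂ)} {S : Fin b → ℂ × ℂ → ℂ} (hS : ∀ j, Reg T (S j))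
    (β : Fin b → ℤ) : Reg T (dt S β) :=
  reg_sum Finset.univ fun j _ => W973.EC.reg_mul (reg_const (β j : ℂ)) (hS j)

theorem dt_sub {b : ℕ} (S : Fin b → ℂ × ℂ → ℂ) (β β' : Fin b → ℤ) (p : ℂ × ℂ) :
    dt S (β - β') p = dt S β p - dt S β' p := by
  unfold dt
  rw [← Finset.sum_sub_distrib]
  refine Finset.sum_congr rfl fun j _ => ?_
  rw [Pi.sub_apply]
  push_cast
  ring

/-! ### Germs -/

theorem ev_lh {p : ℂ → Prop} (h : ∀ᶠ q in 𝓝[≠] (0 : ℂ), p q) :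
    ∃ c : ℝ, ∀ w : ℂ, w.re < c → p (Complex.exp w) := by
  rw [eventually_nhdsWithin_iff] at h
  obtain ⟨r, hr, h1⟩ := Metric.eventually_nhds_iff_ball.1 h
  refine ⟨Real.log r, fun w hw => h1 _ ?_ (Complex.exp_ne_zero w)⟩
  rw [mem_ball_zero_iff, Complex.norm_exp]
  exact (Real.lt_log_iff_exp_lt hr).1 hw

theorem lh_ev {p : ℂ → Prop} {c : ℝ} (h : ∀ w : ℂ, w.re < c → p (Complex.exp w)) :
    ∀ᶠ q in 𝓝[≠] (0 : ℂ), p q := by
  rw [eventually_nhdsWithin_iff]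
  filter_upwards [Metric.ball_mem_nhds (0 : ℂ) (Real.exp_pos c)] with q hq hq0
  have h1 := h (Complex.log q) (by
    rw [Complex.log_re]
    rw [mem_ball_zero_iff] at hq
    exact (Real.log_lt_iff_lt_exp (norm_pos_iff.2 hq0)).2 hq)
  rwa [Complex.exp_log hq0] at h1

theorem reg_germ {T : Set (ℂ × ℂ)} {t : ℂ → ℂ × ℂ} {c0 : ℝ} (ht : IsPlace T t c0)
    {g : ℂ × ℂ → ℂ} (hg : Reg T g) : ∃ (G : ℂ → ℂ) (c1 : ℝ), MeromorphicAt G 0 ∧ c1 ≤ c0 ∧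
      ∀ w : ℂ, w.re < c1 → g (t w) = G (Complex.exp w) := by
  rcases ht.2.2.2 g hg with h1 | ⟨l, G, c1, h1, _, h3, h4⟩
  · exact ⟨fun _ => 0, c0, MeromorphicAt.const 0 0, le_rfl, h1⟩
  · refine ⟨fun q => q ^ l * G q, c1, ((MeromorphicAt.id 0).zpow l).mul h1.meromorphicAt, h3,
      fun w hw => ?_⟩
    rw [h4 w hw, Complex.exp_int_mul]

theorem dt_germ (h1 : S_PP) {b : ℕ} {T : Set (ℂ × ℂ)} {S : Fin b → ℂ × ℂ → ℂ}
    (hS : ∀ j, Reg T (S j)) {t : ℂ → ℂ × ℂ} {c0 : ℝ} (ht : IsPlace T t c0) (β : Fin b → ℤ) :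
    ∃ (u : ℂ[X]) (k : ℂ → ℂ) (c : ℝ), u.coeff 0 = 0 ∧ AnalyticAt ℂ k 0 ∧
      ∀ w : ℂ, w.re < c → dt S β (t w) = u.eval (Complex.exp w)⁻¹ + k (Complex.exp w) := by
  obtain ⟨G, c1, k1, _, k3⟩ := reg_germ ht (reg_dt hS β)
  obtain ⟨u, k, k4, k5, k6⟩ := h1 G k1
  obtain ⟨c, k7⟩ := ev_lh k6
  refine ⟨u, k, min c1 c, k4, k5, fun w hw => ?_⟩
  rw [k3 w (hw.trans_le (min_le_left _ _)), k7 w (hw.trans_le (min_le_right _ _))]

theorem bdd_germ {k : ℂ → ℂ} (hk : AnalyticAt ℂ k 0) :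
    ∃ (C c : ℝ), ∀ w : ℂ, w.re < c → ‖k (Complex.exp w)‖ ≤ C := by
  have h1 : ∀ᶠ q in 𝓝 (0 : ℂ), ‖k q‖ ≤ ‖k 0‖ + 1 :=
    (hk.continuousAt.norm.eventually (gt_mem_nhds (lt_add_one _))).mono fun _ h => le_of_lt h
  obtain ⟨c, hc⟩ := ev_lh (h1.filter_mono nhdsWithin_le_nhds)
  exact ⟨_, c, hc⟩

/-- the exponential sum -/
noncomputable def fs {b : ℕ} (S : Fin b → ℂ × ℂ → ℂ) (a : (Fin b → ℤ) → ℂ × ℂ → ℂ)
    (B : Finset (Fin b → ℤ)) (p : ℂ × ℂ) : ℂ := ∑ γ ∈ B, a γ p * Complex.exp (dt S γ p)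

theorem hol_fs {b : ℕ} {F : ℂ[X][X]} {h : ℂ[X]} {S : Fin b → ℂ × ℂ → ℂ}
    (hS : ∀ j, Reg (TT F h) (S j)) {a : (Fin b → ℤ) → ℂ × ℂ → ℂ} {B : Finset (Fin b → ℤ)}
    (ha : ∀ γ ∈ B, Reg (TT F h) (a γ)) : HolT F h (fs S a B) := by
  intro z0 ρ φ _ hφ hT
  exact DifferentiableOn.fun_sum fun γ hγ => (W973.EC.reg_diff (ha γ hγ) hφ hT).mul
    (W973.EC.reg_diff (reg_dt hS γ) hφ hT).cexp

/-- The main step. -/
theorem ex_core (h1 : S_PP) (h2 : S_LC) (h3 : S_IT) {b : ℕ} {F : ℂ[X][X]} {h : ℂ[X]}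
    {S : Fin b → ℂ × ℂ → ℂ} (hC : Cov F h) (hS : AddIndep (TT F h) S)
    (B : Finset (Fin b → ℤ)) {a : (Fin b → ℤ) → ℂ × ℂ → ℂ}
    (ha : ∀ β ∈ B, Reg (TT F h) (a β)) {β β' : Fin b → ℤ} (hβ : β ∈ B) (hβ' : β' ∈ B)
    (hne : β ≠ β') : ∃ C C' : Finset (Fin b → ℤ), C ⊆ B ∧ C' ⊆ B ∧ β ∈ C ∧ β' ∉ C ∧ β' ∈ C' ∧
      ((∀ p ∈ TT F h, fs S a B p = 0) → ∀ p ∈ TT F h, fs S a C p = 0) ∧
      ((∀ p ∈ TT F h, fs S a B p ≠ 0) → (∀ p ∈ TT F h, fs S a C p = 0) ∨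
        ∀ p ∈ TT F h, fs S a C' p = 0) := by
  classical
  have hgc := hS.2 (β - β') (sub_ne_zero.2 hne)
  obtain ⟨K, t', c0, htp, hb⟩ := bdd F h hC
  have hunb : ∃ k, ¬ ∃ B c1 : ℝ, ∀ w : ℂ, w.re < c1 → ‖dt S (β - β') (t' k w)‖ ≤ B := by
    by_contra hcon
    push Not at hcon
    exact hgc (hb _ (reg_dt hS.1 _) hcon)
  obtain ⟨k0, hk0⟩ := hunb
  obtain ⟨t, ht'⟩ : ∃ t, t = t' k0 := ⟨_, rfl⟩
  rw [← ht'] at hk0
  have ht : IsPlace (TT F h) t c0 := ht' ▸ htp k0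
  have hnc : ¬ ∃ p : ℂ × ℂ, ∀ w : ℂ, w.re < c0 → t w = p := by
    rintro ⟨p, hp⟩
    exact hk0 ⟨‖dt S (β - β') p‖, c0, fun w hw => by rw [hp w hw]⟩
  have hd := fun γ => dt_germ h1 hS.1 ht γ
  choose u k cu hu0 hka hdt using hd
  have ha' : ∀ γ, ∃ (A : ℂ → ℂ) (c : ℝ), γ ∈ B → MeromorphicAt A 0 ∧
      ∀ w : ℂ, w.re < c → a γ (t w) = A (Complex.exp w) := by
    intro γ
    by_cases hγ : γ ∈ B
    · obtain ⟨A, c, k1, _, k3⟩ := reg_germ ht (ha γ hγ)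
      exact ⟨A, c, fun _ => ⟨k1, k3⟩⟩
    · exact ⟨0, 0, fun h => absurd h hγ⟩
  choose A ca hA using ha'
  obtain ⟨c, hc⟩ : ∃ c : ℝ, ∀ x ∈ (B.image cu ∪ B.image ca) ∪ {c0}, c ≤ x := by
    obtain ⟨c, hc⟩ := ((B.image cu ∪ B.image ca) ∪ {c0}).bddBelow
    exact ⟨c, fun x hx => hc hx⟩
  have hc0 : c ≤ c0 := hc c0 (by simp)
  have hcu : ∀ γ ∈ B, c ≤ cu γ := fun γ hγ => hc _ (by
    simp only [Finset.mem_union, Finset.mem_image]
    exact Or.inl (Or.inl ⟨γ, hγ, rfl⟩))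
  have hca : ∀ γ ∈ B, c ≤ ca γ := fun γ hγ => hc _ (by
    simp only [Finset.mem_union, Finset.mem_image]
    exact Or.inl (Or.inr ⟨γ, hγ, rfl⟩))
  obtain ⟨g, hg⟩ : ∃ g : ℂ[X] → ℂ → ℂ, ∀ x q, g x q =
      ∑ γ ∈ B with u γ = x, A γ q * Complex.exp (k γ q) := ⟨_, fun _ _ => rfl⟩
  have hgm : ∀ x, MeromorphicAt (g x) 0 := by
    intro x
    have e1 : g x = fun q => ∑ γ ∈ B with u γ = x, A γ q * Complex.exp (k γ q) :=
      funext (hg x)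
    rw [e1]
    exact MeromorphicAt.fun_sum fun γ hγ =>
      (hA γ (Finset.mem_filter.1 hγ).1).1.mul (hka γ).cexp.meromorphicAt
  have hcls : ∀ x, ∀ w : ℂ, w.re < c → fs S a (B.filter fun γ => u γ = x) (t w) =
      g x (Complex.exp w) * Complex.exp (x.eval (Complex.exp w)⁻¹) := by
    intro x w hw
    unfold fs
    rw [hg, Finset.sum_mul]
    refine Finset.sum_congr rfl fun γ hγ => ?_
    obtain ⟨hγ1, hγ2⟩ := Finset.mem_filter.1 hγ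
    rw [(hA γ hγ1).2 w (hw.trans_le (hca γ hγ1)), hdt γ w (hw.trans_le (hcu γ hγ1)), hγ2,
      Complex.exp_add]
    ring
  have htot : ∀ w : ℂ, w.re < c → fs S a B (t w) = ∑ i : (B.image u : Finset ℂ[X]),
      g i (Complex.exp w) * Complex.exp ((i : ℂ[X]).eval (Complex.exp w)⁻¹) := by
    intro w hw
    rw [Finset.sum_coe_sort (B.image u) (fun x => g x (Complex.exp w) *
      Complex.exp (x.eval (Complex.exp w)⁻¹))]
    rw [← Finset.sum_congr rfl fun x _ => hcls x w hw]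
    unfold fs
    exact (Finset.sum_fiberwise_of_maps_to (fun γ hγ => Finset.mem_image_of_mem u hγ) _).symm
  have hune : u β ≠ u β' := by
    intro he
    apply hk0
    obtain ⟨C1, c1, e1⟩ := bdd_germ (hka β)
    obtain ⟨C2, c2, e2⟩ := bdd_germ (hka β')
    refine ⟨C1 + C2, min c (min c1 c2), fun w hw => ?_⟩
    have w1 := hw.trans_le (min_le_left _ _)
    have w2 := hw.trans_le ((min_le_right _ _).trans (min_le_left _ _))
    have w3 := hw.trans_le ((min_le_right _ _).trans (min_le_right _ _))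
    rw [dt_sub, hdt β w (w1.trans_le (hcu β hβ)), hdt β' w (w1.trans_le (hcu β' hβ')), he,
      add_sub_add_left_eq_sub]
    exact (norm_sub_le _ _).trans (add_le_add (e1 w w2) (e2 w w3))
  have hinj : Function.Injective (fun i : (B.image u : Finset ℂ[X]) => (i : ℂ[X])) :=
    Subtype.val_injective
  have hcf : ∀ i : (B.image u : Finset ℂ[X]), (i : ℂ[X]).coeff 0 = 0 := by
    rintro ⟨x, hx⟩
    obtain ⟨γ, _, rfl⟩ := Finset.mem_image.1 hx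
    exact hu0 γ
  have hLC := h2 (B.image u : Finset ℂ[X]) (fun i => (i : ℂ[X])) (fun i => g i) hinj hcf
    fun i => hgm i
  -- a class with vanishing germ vanishes
  have hfin : ∀ x, (∀ᶠ q in 𝓝[≠] (0 : ℂ), g x q = 0) →
      ∀ p ∈ TT F h, fs S a (B.filter fun γ => u γ = x) p = 0 := by
    intro x hx
    obtain ⟨c', hc'⟩ := ev_lh hx
    refine h3 F h hC _ (hol_fs hS.1 fun γ hγ => ha γ (Finset.mem_filter.1 hγ).1) t c0 ht hnc
      (min c c') ((min_le_left _ _).trans hc0) fun w hw => ?_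
    rw [hcls x w (hw.trans_le (min_le_left _ _)), hc' w (hw.trans_le (min_le_right _ _)),
      zero_mul]
  refine ⟨B.filter fun γ => u γ = u β, B.filter fun γ => u γ = u β', Finset.filter_subset _ _,
    Finset.filter_subset _ _, Finset.mem_filter.2 ⟨hβ, rfl⟩,
    fun hh => hune (Finset.mem_filter.1 hh).2.symm, Finset.mem_filter.2 ⟨hβ', rfl⟩,
    fun hz => ?_, fun hz => ?_⟩
  · have e1 := hLC.1 (lh_ev (c := c) fun w hw => by
      rw [← htot w hw]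
      exact hz _ (ht.1 w (hw.trans_le hc0)))
    exact hfin _ (e1 ⟨u β, Finset.mem_image_of_mem u hβ⟩)
  · obtain ⟨i0, e1⟩ := hLC.2 (lh_ev (c := c) fun w hw => by
      rw [← htot w hw]
      exact hz _ (ht.1 w (hw.trans_le hc0)))
    by_cases hi : (⟨u β, Finset.mem_image_of_mem u hβ⟩ : (B.image u : Finset ℂ[X])) = i0
    · right
      refine hfin _ (e1 ⟨u β', Finset.mem_image_of_mem u hβ'⟩ fun h4 => ?_)
      rw [← hi] at h4
      exact hune (congrArg Subtype.val h4).symm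
    · left
      exact hfin _ (e1 _ hi)

theorem ex_zero (h1 : S_PP) (h2 : S_LC) (h3 : S_IT) {b : ℕ} {F : ℂ[X][X]} {h : ℂ[X]}
    {S : Fin b → ℂ × ℂ → ℂ} (hC : Cov F h) (hS : AddIndep (TT F h) S)
    {a : (Fin b → ℤ) → ℂ × ℂ → ℂ} (B : Finset (Fin b → ℤ)) :
    (∀ β ∈ B, Reg (TT F h) (a β)) → (∀ p ∈ TT F h, fs S a B p = 0) →
      ∀ β ∈ B, ∀ p ∈ TT F h, a β p = 0 := by
  classical
  induction B using Finset.strongInduction with
  | H B ih =>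
    intro ha hz β hβ
    by_cases hex : ∃ β' ∈ B, β ≠ β'
    · obtain ⟨β', hβ', hne⟩ := hex
      obtain ⟨C, C', hC1, _, hC3, hC4, _, hC6, _⟩ := ex_core h1 h2 h3 hC hS B ha hβ hβ' hne
      exact ih C ⟨hC1, fun hh => hC4 (hh hβ')⟩ (fun γ hγ => ha γ (hC1 hγ)) (hC6 hz) β hC3
    · push Not at hex
      have hB : B = {β} := by
        ext γ
        rw [Finset.mem_singleton]
        exact ⟨fun hγ => (hex γ hγ).symm, fun hγ => hγ ▸ hβ⟩
      intro p hp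
      have e1 := hz p hp
      rw [hB] at e1
      unfold fs at e1
      rw [Finset.sum_singleton] at e1
      exact (mul_eq_zero.1 e1).resolve_right (Complex.exp_ne_zero _)

/-- **Job EX.** -/
theorem ex (h1 : S_PP) (h2 : S_LC) (h3 : S_IT) : S_EX := by
  intro b F h S hC hS B a ha
  refine ⟨fun hz => ex_zero h1 h2 h3 hC hS B ha hz, fun hz β hβ β' hβ' hne => ?_⟩
  obtain ⟨C, C', hC1, hC2, hC3, _, hC5, _, hC7⟩ := ex_core h1 h2 h3 hC hS B ha hβ hβ' hne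
  rcases hC7 hz with h4 | h4
  · exact Or.inl (ex_zero h1 h2 h3 hC hS C (fun γ hγ => ha γ (hC1 hγ)) h4 β hC3)
  · exact Or.inr (ex_zero h1 h2 h3 hC hS C' (fun γ hγ => ha γ (hC2 hγ)) h4 β' hC5)

end Pool.Agent.Q211.MX
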