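import Pool.Agent.Q72.MX.Stm
import Pool.Agent.W973.EC.Loc
import Pool.Agent.W114.ECConn

/-!
Project MX, job IT: the identity theorem on the curve.
-/

set_option autoImplicit false

namespace Pool.Agent.Q211.MX

open Filter Topology Polynomial Pool.Agent.Q72.MX Pool.Agent.W996.EC

/-- the points near which `f` vanishes along the branch -/
def ZB (F : ℂ[X][X]) (h : ℂ[X]) (f : ℂ × ℂ → ℂ) (p : ℂ × ℂ) : Prop :=
  ∃ (ρ : ℝ) (φ : ℂ → ℂ), 0 < ρ ∧ DifferentiableOn ℂ φ (Metric.ball p.1 ρ) ∧ φ p.1 = p.2 ∧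
    (∀ z ∈ Metric.ball p.1 ρ, (z, φ z) ∈ TT F h) ∧ ∀ z ∈ Metric.ball p.1 ρ, f (z, φ z) = 0

theorem zb_zero {F : ℂ[X][X]} {h : ℂ[X]} {f : ℂ × ℂ → ℂ} {p : ℂ × ℂ} (hp : ZB F h f p) :
    f p = 0 := by
  obtain ⟨ρ, φ, h1, _, h3, _, h5⟩ := hp
  have h6 := h5 p.1 (Metric.mem_ball_self h1)
  rw [h3] at h6
  exact h6

/-- two local branches through the same point coincide -/
theorem branch_unique {F : ℂ[X][X]} {h : ℂ[X]} (hC : Cov F h) {q : ℂ × ℂ} {φ ψ : ℂ → ℂ}
    (h1 : ContinuousAt φ q.1) (h2 : ContinuousAt ψ q.1) (e1 : φ q.1 = q.2) (e2 : ψ q.1 = q.2)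
    (t1 : ∀ᶠ z in 𝓝 q.1, (z, φ z) ∈ TT F h) (t2 : ∀ᶠ z in 𝓝 q.1, (z, ψ z) ∈ TT F h) :
    ∀ᶠ z in 𝓝 q.1, φ z = ψ z := by
  have hq : (q.1, q.2) ∈ TT F h := by
    have h3 := t1.self_of_nhds
    rwa [e1] at h3
  obtain ⟨ρ, χ, _, _, _, _, h6⟩ := W973.EC.t_loc F h hC q.1 q.2 hq
  have k1 : Tendsto (fun z => (z, φ z)) (𝓝 q.1) (𝓝 (q.1, q.2)) := by
    have := continuousAt_id.prodMk h1
    rw [ContinuousAt, e1] at this
    exact this
  have k2 : Tendsto (fun z => (z, ψ z)) (𝓝 q.1) (𝓝 (q.1, q.2)) := by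
    have := continuousAt_id.prodMk h2
    rw [ContinuousAt, e2] at this
    exact this
  filter_upwards [k1.eventually h6, k2.eventually h6, t1, t2] with z a1 a2 a3 a4
  exact (a1 a3).trans (a2 a4).symm

/-- the dichotomy near a point of the curve -/
theorem zb_near {F : ℂ[X][X]} {h : ℂ[X]} (hC : Cov F h) {f : ℂ × ℂ → ℂ} (hf : HolT F h f)
    {p : ℂ × ℂ} (hp : p ∈ TT F h) :
    (∀ᶠ q in 𝓝 p, q ∈ TT F h → ZB F h f q) ∨ (∀ᶠ q in 𝓝 p, q ∈ TT F h → ¬ ZB F h f q) := by
  obtain ⟨ρ, φ, hρ, hd, hφ, hT, hloc⟩ := W973.EC.t_loc F h hC p.1 p.2 hp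
  have hb : ∀ᶠ q : ℂ × ℂ in 𝓝 p, q.1 ∈ Metric.ball p.1 ρ :=
    (continuousAt_fst (p := p)).eventually (Metric.ball_mem_nhds p.1 hρ)
  have hopen : IsOpen (Metric.ball p.1 ρ) := Metric.isOpen_ball
  by_cases hz : ∀ z ∈ Metric.ball p.1 ρ, f (z, φ z) = 0
  · left
    filter_upwards [hloc, hb] with q h1 h2 h3
    obtain ⟨r, hr, h4⟩ := Metric.isOpen_iff.1 hopen q.1 h2
    exact ⟨r, φ, hr, hd.mono h4, (h1 h3).symm, fun z hz' => hT z (h4 hz'),
      fun z hz' => hz z (h4 hz')⟩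
  · right
    filter_upwards [hloc, hb] with q h1 h2 h3 h4
    obtain ⟨r, ψ, hr, k1, k2, k3, k4⟩ := h4
    apply hz
    have hψc : ContinuousAt ψ q.1 :=
      (k1.differentiableAt (Metric.ball_mem_nhds q.1 hr)).continuousAt
    have hφc : ContinuousAt φ q.1 := (hd.differentiableAt (hopen.mem_nhds h2)).continuousAt
    have h5 := branch_unique hC hφc hψc (h1 h3).symm k2
      (eventually_of_mem (hopen.mem_nhds h2) hT)
      (eventually_of_mem (Metric.ball_mem_nhds q.1 hr) k3)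
    have h6 : (fun z => f (z, φ z)) =ᶠ[𝓝 q.1] 0 := by
      filter_upwards [h5, Metric.ball_mem_nhds q.1 hr] with z a1 a2
      rw [a1]
      exact k4 z a2
    have h7 : AnalyticOnNhd ℂ (fun z => f (z, φ z)) (Metric.ball p.1 ρ) :=
      (hf p.1 ρ φ hρ hd hT).analyticOnNhd hopen
    exact fun z hz' => h7.eqOn_zero_of_preconnected_of_eventuallyEq_zero
      (convex_ball _ _).isPreconnected h2 h6 hz'

/-- **Job IT, second statement.** -/
theorem it2 : S_IT2 := by
  intro F h hC f hf z0 ρ φ hρ hd hT h0 p hp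
  have hconn := Pool.Agent.W114.ECC.t_conn F h hC
  have hbase : ZB F h f (z0, φ z0) := ⟨ρ, φ, hρ, hd, rfl, hT, h0⟩
  have hbT : (z0, φ z0) ∈ TT F h := hT z0 (Metric.mem_ball_self hρ)
  by_contra hne
  have hpZ : ¬ ZB F h f p := fun hZ => hne (zb_zero hZ)
  have h1 := hconn (interior {q | q ∈ TT F h → ZB F h f q})
    (interior {q | q ∈ TT F h → ¬ ZB F h f q}) isOpen_interior isOpen_interior
    (fun q hq => by
      rcases zb_near hC hf hq with h2 | h2
      · exact Or.inl (mem_interior_iff_mem_nhds.2 h2)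
      · exact Or.inr (mem_interior_iff_mem_nhds.2 h2))
    ⟨(z0, φ z0), hbT, by
      rcases zb_near hC hf hbT with h2 | h2
      · exact mem_interior_iff_mem_nhds.2 h2
      · exact absurd hbase (h2.self_of_nhds hbT)⟩
    ⟨p, hp, by
      rcases zb_near hC hf hp with h2 | h2
      · exact absurd (h2.self_of_nhds hp) hpZ
      · exact mem_interior_iff_mem_nhds.2 h2⟩
  obtain ⟨q, hq, h2, h3⟩ := h1
  exact interior_subset h3 hq (interior_subset h2 hq)

theorem open_lh (c : ℝ) : IsOpen {w : ℂ | w.re < c} :=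
  isOpen_lt Complex.continuous_re continuous_const

theorem conn_lh (c : ℝ) : IsPreconnected {w : ℂ | w.re < c} :=
  (convex_halfSpace_re_lt c).isPreconnected

/-- **Job IT, first statement.** -/
theorem it : S_IT := by
  intro F h hC f hf t c0 ht hnc c1 hc1 hz
  obtain ⟨htT, hg, hv, _⟩ := ht
  have hgA : AnalyticOnNhd ℂ (fun w => (t w).1) {w : ℂ | w.re < c0} :=
    hg.analyticOnNhd (open_lh c0)
  -- the first coordinate is not constant
  have hn1 : ¬ ∀ w : ℂ, w.re < c1 → deriv (fun w => (t w).1) w = 0 := by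
    intro h1
    apply hnc
    obtain ⟨w0, hw0⟩ : ∃ w0 : ℂ, w0.re < c1 := ⟨((c1 - 1 : ℝ) : ℂ), by simp⟩
    have h2 : ∀ w : ℂ, w.re < c1 → (t w).1 = (t w0).1 := by
      intro w hw
      exact (convex_halfSpace_re_lt c1).is_const_of_fderivWithin_eq_zero (𝕜 := ℂ)
        (hg.mono fun x (hx : x.re < c1) => hx.trans_le hc1) (fun x hx => by
          rw [fderivWithin_of_isOpen (open_lh c1) hx]
          have h3 := h1 x hx
          ext
          simpa using h3) hw hw0
    have h3 : ∀ w : ℂ, w.re < c0 → (t w).1 = (t w0).1 := by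
      intro w hw
      have h4 : (fun w => (t w).1) =ᶠ[𝓝 w0] fun _ => (t w0).1 :=
        eventually_of_mem ((open_lh c1).mem_nhds hw0) h2
      exact hgA.eqOn_of_preconnected_of_eventuallyEq analyticOnNhd_const (conn_lh c0)
        (hw0.trans_le hc1) h4 hw
    have h5 : ((fun w => (t w).2) '' {w : ℂ | w.re < c0}).Subsingleton := by
      by_contra h6
      rw [Set.not_subsingleton_iff] at h6
      have h7 := ((conn_lh c0).image _ hv.continuousOn).infinite_of_nontrivial h6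
      apply h7
      have hne : (F.map (evalRingHom (t w0).1)) ≠ 0 := by
        intro h8
        have h9 := (hC.good (t w0).1 (htT w0 (hw0.trans_le hc1)).2).1
        rw [h8, natDegree_zero] at h9
        have := hC.deg
        omega
      refine (Multiset.finite_toSet (F.map (evalRingHom (t w0).1)).roots).subset ?_
      rintro _ ⟨w, hw, rfl⟩
      change (t w).2 ∈ (F.map (evalRingHom (t w0).1)).roots
      rw [mem_roots hne, IsRoot.def, ← evalEval_map, ← h3 w hw]
      exact (htT w hw).1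
    refine ⟨t w0, fun w hw => Prod.ext (h3 w hw) ?_⟩
    exact h5 ⟨w, hw, rfl⟩ ⟨w0, hw0.trans_le hc1, rfl⟩
  push Not at hn1
  obtain ⟨w1, hw1, hdw⟩ := hn1
  have hw10 : w1.re < c0 := hw1.trans_le hc1
  have hgat : AnalyticAt ℂ (fun w => (t w).1) w1 := hgA w1 hw10
  have hs : HasStrictDerivAt (fun w => (t w).1) (deriv (fun w => (t w).1) w1) w1 :=
    hgat.hasStrictDerivAt
  obtain ⟨e, he⟩ : ∃ e : OpenPartialHomeomorph ℂ ℂ, e =
    (hs.hasStrictFDerivAt_equiv hdw).toOpenPartialHomeomorph (fun w => (t w).1) := ⟨_, rfl⟩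
  have he1 : ∀ w, e w = (t w).1 := fun w => by rw [he]; rfl
  have he2 : w1 ∈ e.source := by
    rw [he]
    exact (hs.hasStrictFDerivAt_equiv hdw).mem_toOpenPartialHomeomorph_source
  have he3 : (t w1).1 ∈ e.target := by
    rw [← he1]
    exact e.map_source he2
  have he4 : e.symm (t w1).1 = w1 := by
    rw [← he1]
    exact e.left_inv he2
  -- the good set
  have hgood : ∀ᶠ z in 𝓝 (t w1).1, z ∈ e.target ∧ (e.symm z).re < c1 ∧
      deriv (fun w => (t w).1) (e.symm z) ≠ 0 := by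
    have hc : ContinuousAt e.symm (t w1).1 := e.continuousAt_symm he3
    have h1 : ∀ᶠ w in 𝓝 w1, w.re < c1 ∧ deriv (fun w => (t w).1) w ≠ 0 :=
      Filter.Eventually.and ((open_lh c1).mem_nhds hw1)
        (hgat.deriv.continuousAt.eventually_ne hdw)
    rw [ContinuousAt, he4] at hc
    exact Filter.Eventually.and (e.open_target.mem_nhds he3) (hc.eventually h1)
  obtain ⟨r, hr, hball⟩ := Metric.eventually_nhds_iff_ball.1 hgood
  have hright : ∀ z ∈ Metric.ball (t w1).1 r, (t (e.symm z)).1 = z := by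
    intro z hz'
    rw [← he1]
    exact e.right_inv (hball z hz').1
  refine it2 F h hC f hf (t w1).1 r (fun z => (t (e.symm z)).2) hr ?_ ?_ ?_
  · intro z hz'
    obtain ⟨a1, a2, a3⟩ := hball z hz'
    have b1 : HasDerivAt e (deriv (fun w => (t w).1) (e.symm z)) (e.symm z) := by
      have b2 : (e : ℂ → ℂ) = fun w => (t w).1 := funext he1
      rw [b2]
      exact (hgA _ (a2.trans_le hc1)).differentiableAt.hasDerivAt
    have b3 := e.hasDerivAt_symm a1 a3 b1
    have b4 : DifferentiableAt ℂ (fun w => (t w).2) (e.symm z) :=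
      hv.differentiableAt ((open_lh c0).mem_nhds (a2.trans_le hc1))
    exact (b4.comp z b3.differentiableAt).differentiableWithinAt
  · intro z hz'
    have b1 := htT (e.symm z) ((hball z hz').2.1.trans_le hc1)
    have b2 : (z, (t (e.symm z)).2) = t (e.symm z) := Prod.ext (hright z hz').symm rfl
    rw [b2]
    exact b1
  · intro z hz'
    have b2 : (z, (t (e.symm z)).2) = t (e.symm z) := Prod.ext (hright z hz').symm rfl
    rw [b2]
    exact hz _ (hball z hz').2.1

end Pool.Agent.Q211.MX
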