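import Pool.Agent.Q72.MX.Stm

/-!
Project MX, job XP: the polynomial form of the main local lemma.
-/

set_option autoImplicit false

namespace Pool.Agent.Q211.MX

open Filter Topology Polynomial Pool.Agent.Q72.MX Pool.Agent.W996.EC

/-! ### Functions which are holomorphic and of polynomial growth -/

/-- holomorphic on the half plane and of polynomial growth -/
def DP (c0 : ℝ) (q : ℂ → ℂ) : Prop := DifferentiableOn ℂ q (LH c0) ∧ PB q

theorem pb_of {q : ℂ → ℂ} (h : ∀ Y : ℝ, ∃ (C c : ℝ) (M : ℕ), 0 ≤ C ∧ c ≤ 0 ∧ ∀ w : ℂ, w.re < c →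
    |w.im| ≤ Y → ‖q w‖ ≤ C * Real.exp (-(M * w.re))) : PB q := by
  intro Y
  obtain ⟨C, c, M, _, _, h1⟩ := h Y
  exact ⟨C, c, M, h1⟩

theorem pb_norm {q : ℂ → ℂ} (h : PB q) (Y : ℝ) : ∃ (C c : ℝ) (M : ℕ), 0 ≤ C ∧ c ≤ 0 ∧
    ∀ w : ℂ, w.re < c → |w.im| ≤ Y → ‖q w‖ ≤ C * Real.exp (-(M * w.re)) := by
  obtain ⟨C, c, M, h1⟩ := h Y
  refine ⟨max C 0, min c 0, M, le_max_right _ _, min_le_right _ _, fun w hw hY => ?_⟩
  refine (h1 w (hw.trans_le (min_le_left _ _)) hY).trans ?_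
  exact mul_le_mul_of_nonneg_right (le_max_left _ _) (Real.exp_pos _).le

theorem exp_mono {M N : ℕ} (h : M ≤ N) {r : ℝ} (hr : r ≤ 0) :
    Real.exp (-(M * r)) ≤ Real.exp (-(N * r)) := by
  apply Real.exp_le_exp.2
  have h1 : (M : ℝ) ≤ N := by exact_mod_cast h
  nlinarith

theorem pb_add {f g : ℂ → ℂ} (hf : PB f) (hg : PB g) : PB fun w => f w + g w := by
  refine pb_of fun Y => ?_
  obtain ⟨C1, c1, M1, h1, h2, h3⟩ := pb_norm hf Y
  obtain ⟨C2, c2, M2, k1, k2, k3⟩ := pb_norm hg Y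
  refine ⟨C1 + C2, min c1 c2, M1 + M2, add_nonneg h1 k1, (min_le_left _ _).trans h2,
    fun w hw hY => ?_⟩
  have hw1 := hw.trans_le (min_le_left _ _)
  have hw2 := hw.trans_le (min_le_right _ _)
  have hr : w.re ≤ 0 := (hw1.trans_le h2).le
  calc ‖f w + g w‖ ≤ ‖f w‖ + ‖g w‖ := norm_add_le _ _
  _ ≤ C1 * Real.exp (-((M1 + M2 : ℕ) * w.re)) + C2 * Real.exp (-((M1 + M2 : ℕ) * w.re)) := by
      refine add_le_add ((h3 w hw1 hY).trans ?_) ((k3 w hw2 hY).trans ?_)
      · exact mul_le_mul_of_nonneg_left (exp_mono (Nat.le_add_right _ _) hr) h1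
      · exact mul_le_mul_of_nonneg_left (exp_mono (Nat.le_add_left _ _) hr) k1
  _ = (C1 + C2) * Real.exp (-((M1 + M2 : ℕ) * w.re)) := by ring

theorem pb_mul {f g : ℂ → ℂ} (hf : PB f) (hg : PB g) : PB fun w => f w * g w := by
  refine pb_of fun Y => ?_
  obtain ⟨C1, c1, M1, h1, h2, h3⟩ := pb_norm hf Y
  obtain ⟨C2, c2, M2, k1, k2, k3⟩ := pb_norm hg Y
  refine ⟨C1 * C2, min c1 c2, M1 + M2, mul_nonneg h1 k1, (min_le_left _ _).trans h2,
    fun w hw hY => ?_⟩
  have hw1 := hw.trans_le (min_le_left _ _)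
  have hw2 := hw.trans_le (min_le_right _ _)
  rw [norm_mul]
  calc ‖f w‖ * ‖g w‖ ≤ (C1 * Real.exp (-(M1 * w.re))) * (C2 * Real.exp (-(M2 * w.re))) :=
      mul_le_mul (h3 w hw1 hY) (k3 w hw2 hY) (norm_nonneg _)
        (mul_nonneg h1 (Real.exp_pos _).le)
  _ = C1 * C2 * Real.exp (-((M1 + M2 : ℕ) * w.re)) := by
      have e1 : -(((M1 + M2 : ℕ) : ℝ) * w.re) = -(M1 * w.re) + -(M2 * w.re) := by
        push_cast
        ring
      rw [e1, Real.exp_add]
      ring

theorem dp_const (c0 : ℝ) (a : ℂ) : DP c0 fun _ => a := by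
  refine ⟨differentiableOn_const a, pb_of fun Y => ⟨‖a‖, 0, 0, norm_nonneg _, le_rfl,
    fun w _ _ => ?_⟩⟩
  simp

theorem dp_add {c0 : ℝ} {f g : ℂ → ℂ} (hf : DP c0 f) (hg : DP c0 g) :
    DP c0 fun w => f w + g w := ⟨hf.1.add hg.1, pb_add hf.2 hg.2⟩

theorem dp_mul {c0 : ℝ} {f g : ℂ → ℂ} (hf : DP c0 f) (hg : DP c0 g) :
    DP c0 fun w => f w * g w := ⟨hf.1.mul hg.1, pb_mul hf.2 hg.2⟩

theorem dp_sum {c0 : ℝ} {ι : Type*} (s : Finset ι) {f : ι → ℂ → ℂ}
    (hf : ∀ i ∈ s, DP c0 (f i)) : DP c0 fun w => ∑ i ∈ s, f i w := by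
  classical
  induction s using Finset.induction_on with
  | empty =>
    simp only [Finset.sum_empty]
    exact dp_const c0 0
  | insert i s hi ih =>
    simp only [Finset.sum_insert hi]
    exact dp_add (hf i (Finset.mem_insert_self i s)) (ih fun j hj =>
      hf j (Finset.mem_insert_of_mem hj))

/-- the coordinates -/
theorem dp_x {c0 C0 : ℝ} (α : ℝ) (b : ℂ) {hh : ℂ → ℂ} (h1 : DifferentiableOn ℂ hh (LH c0))
    (h2 : ∀ w ∈ LH c0, ‖hh w‖ ≤ C0) : DP c0 fun w => (α : ℂ) * w + b + hh w := by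
  have hw : DP c0 fun w => w := by
    refine ⟨differentiableOn_id, pb_of fun Y => ⟨1 + |Y|, 0, 1, by positivity, le_rfl,
      fun w hw hY => ?_⟩⟩
    have e1 : ‖w‖ ≤ |w.re| + |w.im| := Complex.norm_le_abs_re_add_abs_im w
    have e2 : |w.re| = -w.re := abs_of_neg hw
    have e3 : -w.re ≤ Real.exp (-w.re) := by
      have := Real.add_one_le_exp (-w.re)
      linarith
    have e4 : (1 : ℝ) ≤ Real.exp (-w.re) := by
      have := Real.add_one_le_exp (-w.re)
      linarith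
    have e5 : |w.im| ≤ |Y| := hY.trans (le_abs_self _)
    have e6 : |Y| ≤ |Y| * Real.exp (-w.re) := le_mul_of_one_le_right (abs_nonneg _) e4
    simp only [Nat.cast_one, one_mul]
    nlinarith
  have hhh : DP c0 hh := by
    refine ⟨h1, pb_of fun Y => ⟨|C0|, min c0 0, 0, abs_nonneg _, min_le_right _ _,
      fun w hw _ => ?_⟩⟩
    have e1 := h2 w (hw.trans_le (min_le_left _ _))
    simp only [Nat.cast_zero, zero_mul, neg_zero, Real.exp_zero, mul_one]
    exact e1.trans (le_abs_self _)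
  exact dp_add (dp_add (dp_mul (dp_const c0 α) hw) (dp_const c0 b)) hhh

theorem pb_germ0 {c0 : ℝ} {A : ℂ → ℂ} (h : Germ0 c0 A) : PB A := by
  obtain ⟨a, ⟨n, hn⟩, h2⟩ := h
  obtain ⟨B, hB⟩ : ∃ B : ℝ, ∀ᶠ z in 𝓝 (0 : ℂ), ‖(z - 0) ^ n • a z‖ ≤ B := by
    have h3 := hn.continuousAt.norm
    refine ⟨‖((0 : ℂ) - 0) ^ n • a 0‖ + 1, ?_⟩
    exact (h3.eventually (gt_mem_nhds (lt_add_one _))).mono fun z hz => le_of_lt hz
  obtain ⟨r, hr, h4⟩ := Metric.eventually_nhds_iff_ball.1 hB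
  refine pb_of fun Y => ⟨|B|, min (min c0 (Real.log r)) 0, n, abs_nonneg _, min_le_right _ _,
    fun w hw _ => ?_⟩
  have hw1 : w.re < c0 := hw.trans_le ((min_le_left _ _).trans (min_le_left _ _))
  have hw2 : w.re < Real.log r := hw.trans_le ((min_le_left _ _).trans (min_le_right _ _))
  have e1 : ‖Complex.exp w‖ = Real.exp w.re := Complex.norm_exp w
  have e2 : Complex.exp w ∈ Metric.ball (0 : ℂ) r := by
    rw [mem_ball_zero_iff, e1]
    exact (Real.lt_log_iff_exp_lt hr).1 hw2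
  have e3 := h4 _ e2
  rw [sub_zero, norm_smul, norm_pow, e1] at e3
  rw [h2 w hw1]
  have e4 : Real.exp w.re ^ n * Real.exp (-(n * w.re)) = 1 := by
    rw [← Real.exp_nat_mul, ← Real.exp_add]
    simp
  have e5 : ‖a (Complex.exp w)‖ = (Real.exp w.re ^ n * ‖a (Complex.exp w)‖) *
      Real.exp (-(n * w.re)) := by
    calc ‖a (Complex.exp w)‖ = (Real.exp w.re ^ n * Real.exp (-(n * w.re))) *
        ‖a (Complex.exp w)‖ := by rw [e4, one_mul]
    _ = _ := by ring
  rw [e5]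
  exact mul_le_mul_of_nonneg_right (e3.trans (le_abs_self _)) (Real.exp_pos _).le

/-! ### Polynomials along a line -/

/-- coefficientwise -/
def DPX (c0 : ℝ) (p : ℂ → ℂ[X]) : Prop := ∀ l, DP c0 fun w => (p w).coeff l

theorem dpx_mul {c0 : ℝ} {p q : ℂ → ℂ[X]} (hp : DPX c0 p) (hq : DPX c0 q) :
    DPX c0 fun w => p w * q w := by
  intro l
  simp only [Polynomial.coeff_mul]
  exact dp_sum _ fun i _ => dp_mul (hp _) (hq _)

theorem dpx_sum {c0 : ℝ} {ι : Type*} (s : Finset ι) {p : ι → ℂ → ℂ[X]}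
    (hp : ∀ i ∈ s, DPX c0 (p i)) : DPX c0 fun w => ∑ i ∈ s, p i w := by
  intro l
  simp only [Polynomial.finsetSum_coeff]
  exact dp_sum _ fun i hi => hp i hi l

theorem dpx_C {c0 : ℝ} {f : ℂ → ℂ} (hf : DP c0 f) : DPX c0 fun w => C (f w) := by
  intro l
  simp only [Polynomial.coeff_C]
  by_cases hl : l = 0
  · simp only [hl, if_true]
    exact hf
  · simp only [if_neg hl]
    exact dp_const c0 0

theorem dpx_const (c0 : ℝ) (p : ℂ[X]) : DPX c0 fun _ => p := fun _ => dp_const c0 _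

theorem dpx_pow {c0 : ℝ} {p : ℂ → ℂ[X]} (hp : DPX c0 p) (n : ℕ) : DPX c0 fun w => p w ^ n := by
  induction n with
  | zero =>
    simp only [pow_zero]
    exact dpx_const c0 1
  | succ n ih =>
    simp only [pow_succ]
    exact dpx_mul ih hp

theorem dpx_prod {c0 : ℝ} {ι : Type*} (s : Finset ι) {p : ι → ℂ → ℂ[X]}
    (hp : ∀ i ∈ s, DPX c0 (p i)) : DPX c0 fun w => ∏ i ∈ s, p i w := by
  classical
  induction s using Finset.induction_on with
  | empty =>
    simp only [Finset.prod_empty]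
    exact dpx_const c0 1
  | insert i s hi ih =>
    simp only [Finset.prod_insert hi]
    exact dpx_mul (hp i (Finset.mem_insert_self i s)) (ih fun j hj =>
      hp j (Finset.mem_insert_of_mem hj))

theorem dpx_add {c0 : ℝ} {p q : ℂ → ℂ[X]} (hp : DPX c0 p) (hq : DPX c0 q) :
    DPX c0 fun w => p w + q w := by
  intro l
  simp only [Polynomial.coeff_add]
  exact dp_add (hp l) (hq l)

/-- the polynomial `P (x + Λ K)` in `Λ` -/
noncomputable def lp {a : ℕ} (P : MvPolynomial (Fin a) ℂ) (x K : Fin a → ℂ) : ℂ[X] :=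
  MvPolynomial.eval₂ Polynomial.C (fun j => C (x j) + C (K j) * X) P

theorem eval_lp {a : ℕ} (P : MvPolynomial (Fin a) ℂ) (x K : Fin a → ℂ) (t : ℂ) :
    (lp P x K).eval t = MvPolynomial.eval (fun j => x j + K j * t) P := by
  unfold lp
  have h1 := MvPolynomial.eval₂_comp_left (Polynomial.evalRingHom t) Polynomial.C
    (fun j => C (x j) + C (K j) * X) P
  rw [Polynomial.coe_evalRingHom] at h1
  rw [h1, MvPolynomial.eval, MvPolynomial.coe_eval₂Hom]
  congr 1
  · ext z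
    simp
  · funext j
    simp

theorem eval2_fix {a : ℕ} {P : MvPolynomial (Fin a) ℂ} {S : Finset (Fin a →₀ ℕ)}
    (hS : P.support ⊆ S) {R : Type*} [CommSemiring R] (f : ℂ →+* R) (g : Fin a → R) :
    MvPolynomial.eval₂ f g P = ∑ m ∈ S, f (MvPolynomial.coeff m P) * ∏ j, g j ^ m j := by
  rw [MvPolynomial.eval₂_eq']
  refine Finset.sum_subset hS fun m _ hm => ?_
  rw [MvPolynomial.notMem_support_iff.1 hm, map_zero, zero_mul]

/-- the monomials of degree at most `d` in each variable -/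
noncomputable def Mon (a d : ℕ) : Finset (Fin a →₀ ℕ) :=
  Finset.Iic (Finsupp.equivFunOnFinite.symm fun _ => d)

theorem sub_mon {a d : ℕ} {P : MvPolynomial (Fin a) ℂ} (hP : P.totalDegree ≤ d) :
    P.support ⊆ Mon a d := by
  intro m hm
  rw [Mon, Finset.mem_Iic]
  intro j
  have h1 := MvPolynomial.le_totalDegree hm
  have h2 : m j ≤ m.sum fun _ e => e := by
    by_cases hj : j ∈ m.support
    · exact Finset.single_le_sum (f := fun j => m j) (fun _ _ => Nat.zero_le _) hj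
    · rw [Finsupp.notMem_support_iff.1 hj]
      exact Nat.zero_le _
  exact h2.trans (h1.trans hP)

theorem deg_prod {ι : Type*} (s : Finset ι) (f : ι → ℂ[X]) (n : ι → ℕ)
    (h : ∀ i ∈ s, (f i).natDegree ≤ n i) : (∏ i ∈ s, f i).natDegree ≤ ∑ i ∈ s, n i ∧
      (∏ i ∈ s, f i).coeff (∑ i ∈ s, n i) = ∏ i ∈ s, (f i).coeff (n i) := by
  classical
  induction s using Finset.induction_on with
  | empty => simp
  | insert i s hi ih =>
    obtain ⟨h1, h2⟩ := ih fun j hj => h j (Finset.mem_insert_of_mem hj)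
    have h3 := h i (Finset.mem_insert_self i s)
    rw [Finset.prod_insert hi, Finset.sum_insert hi, Finset.prod_insert hi]
    exact ⟨Polynomial.natDegree_mul_le.trans (add_le_add h3 h1), by
      rw [Polynomial.coeff_mul_add_eq_of_natDegree_le h3 h1, h2]⟩

theorem term_deg {a : ℕ} (x K : Fin a → ℂ) (m : Fin a →₀ ℕ) :
    (∏ j, (C (x j) + C (K j) * X : ℂ[X]) ^ m j).natDegree ≤ ∑ j, m j ∧
      (∏ j, (C (x j) + C (K j) * X : ℂ[X]) ^ m j).coeff (∑ j, m j) = ∏ j, K j ^ m j := by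
  have h1 : ∀ j, (C (x j) + C (K j) * X : ℂ[X]).natDegree ≤ 1 := by
    intro j
    refine (Polynomial.natDegree_add_le _ _).trans (max_le ?_ ?_)
    · rw [Polynomial.natDegree_C]
      exact Nat.zero_le _
    · exact (Polynomial.natDegree_C_mul_le _ _).trans Polynomial.natDegree_X_le
  have h2 : ∀ j, ((C (x j) + C (K j) * X : ℂ[X]) ^ m j).natDegree ≤ m j := by
    intro j
    refine Polynomial.natDegree_pow_le.trans ?_
    calc m j * (C (x j) + C (K j) * X : ℂ[X]).natDegree ≤ m j * 1 :=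
        Nat.mul_le_mul_left _ (h1 j)
    _ = m j := mul_one _
  obtain ⟨h3, h4⟩ := deg_prod Finset.univ (fun j => (C (x j) + C (K j) * X : ℂ[X]) ^ m j)
    (fun j => m j) fun j _ => h2 j
  refine ⟨h3, h4.trans (Finset.prod_congr rfl fun j _ => ?_)⟩
  have h5 := Polynomial.coeff_pow_of_natDegree_le (m := m j) (h1 j)
  rw [mul_one] at h5
  rw [h5]
  simp

theorem deg_lp {a d : ℕ} {P : MvPolynomial (Fin a) ℂ} (hP : P.totalDegree ≤ d)
    (x K : Fin a → ℂ) : (lp P x K).natDegree ≤ d ∧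
      (lp P x K).coeff d = MvPolynomial.eval K (MvPolynomial.homogeneousComponent d P) := by
  have hdeg : ∀ m ∈ P.support, ∑ j, m j ≤ d := by
    intro m hm
    have h1 := MvPolynomial.le_totalDegree hm
    rw [Finsupp.sum_fintype _ _ fun _ => rfl] at h1
    exact h1.trans hP
  have e1 : lp P x K = ∑ m ∈ P.support, C (MvPolynomial.coeff m P) *
      ∏ j, (C (x j) + C (K j) * X : ℂ[X]) ^ m j := by
    unfold lp
    exact eval2_fix subset_rfl _ _
  constructor
  · rw [e1]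
    refine Polynomial.natDegree_sum_le_of_forall_le _ _ fun m hm => ?_
    exact (Polynomial.natDegree_C_mul_le _ _).trans ((term_deg x K m).1.trans (hdeg m hm))
  · have e2 : MvPolynomial.eval K (MvPolynomial.homogeneousComponent d P) =
        ∑ m ∈ P.support, MvPolynomial.coeff m (MvPolynomial.homogeneousComponent d P) *
          ∏ j, K j ^ m j := by
      rw [MvPolynomial.eval, MvPolynomial.coe_eval₂Hom]
      refine (eval2_fix (S := P.support) ?_ _ _).trans ?_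
      · intro m hm
        rw [MvPolynomial.mem_support_iff, MvPolynomial.coeff_homogeneousComponent] at hm
        rw [MvPolynomial.mem_support_iff]
        intro h0
        rw [h0, ite_self] at hm
        exact hm rfl
      · rfl
    rw [e2, e1, Polynomial.finsetSum_coeff]
    refine Finset.sum_congr rfl fun m hm => ?_
    rw [Polynomial.coeff_C_mul, MvPolynomial.coeff_homogeneousComponent, Finsupp.degree_eq_sum]
    by_cases hd : ∑ j, m j = d
    · rw [if_pos hd, ← hd, (term_deg x K m).2]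
    · rw [if_neg hd, zero_mul, Polynomial.coeff_eq_zero_of_natDegree_lt, mul_zero]
      exact lt_of_le_of_lt (term_deg x K m).1 (lt_of_le_of_ne (hdeg m hm) hd)

theorem lp_val {a d : ℕ} {P : MvPolynomial (Fin a) ℂ} (hP : P.totalDegree ≤ d)
    (x K : Fin a → ℂ) (t : ℂ) : MvPolynomial.eval (fun j => x j + K j * t) P =
      t ^ d * MvPolynomial.eval K (MvPolynomial.homogeneousComponent d P) +
        ∑ l ∈ Finset.range d, t ^ l * (lp P x K).coeff l := by
  obtain ⟨h1, h2⟩ := deg_lp hP x K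
  rw [← eval_lp, Polynomial.eval_eq_sum_range' (Nat.lt_succ_of_le h1), Finset.sum_range_succ,
    h2, add_comm]
  congr 1
  · ring
  · exact Finset.sum_congr rfl fun l _ => mul_comm _ _

theorem dpx_lp {a : ℕ} (d : ℕ) {c0 : ℝ} {P : ℂ → MvPolynomial (Fin a) ℂ}
    (hc : ∀ m, Germ0 c0 (fun w => MvPolynomial.coeff m (P w)) ∧
      DifferentiableOn ℂ (fun w => MvPolynomial.coeff m (P w)) (LH c0))
    {x : ℂ → Fin a → ℂ} (hx : ∀ j, DP c0 fun w => x w j) (K : Fin a → ℂ) :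
    DPX c0 fun w => ∑ m ∈ Mon a d, C (MvPolynomial.coeff m (P w)) *
      ∏ j, (C (x w j) + C (K j) * X : ℂ[X]) ^ m j := by
  refine dpx_sum _ fun m _ => dpx_mul (dpx_C ⟨(hc m).2, pb_germ0 (hc m).1⟩)
    (dpx_prod _ fun j _ => dpx_pow (dpx_add (dpx_C (hx j)) (dpx_const c0 _)) _)

theorem eval_hom {a d : ℕ} (P : MvPolynomial (Fin a) ℂ) (c : ℂ) (y : Fin a → ℂ) :
    MvPolynomial.eval (fun j => c * y j) (MvPolynomial.homogeneousComponent d P) =
      c ^ d * MvPolynomial.eval y (MvPolynomial.homogeneousComponent d P) := by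
  rw [MvPolynomial.eval_eq', MvPolynomial.eval_eq', Finset.mul_sum]
  refine Finset.sum_congr rfl fun m hm => ?_
  rw [MvPolynomial.mem_support_iff, MvPolynomial.coeff_homogeneousComponent] at hm
  have h2 : ∑ j, m j = d := by
    by_contra h3
    rw [Finsupp.degree_eq_sum, if_neg h3] at hm
    exact hm rfl
  have h3 : ∏ j, (c * y j) ^ m j = c ^ d * ∏ j, y j ^ m j := by
    rw [← h2, ← Finset.prod_pow_eq_pow_sum, ← Finset.prod_mul_distrib]
    exact Finset.prod_congr rfl fun j _ => mul_pow _ _ _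
  rw [h3]
  ring

theorem germ1_mul {c0 : ℝ} {A : ℂ → ℂ} (h : Germ1 c0 A) {c : ℂ} (hc : c ≠ 0) :
    Germ1 c0 fun w => c * A w := by
  obtain ⟨a, h1, h2, h3⟩ := h
  refine ⟨fun s => c * a s, (MeromorphicAt.const c 0).mul h1, ?_, fun w hw => ?_⟩
  · filter_upwards [h2] with s hs
    exact mul_ne_zero hc hs
  · beta_reduce
    rw [h3 w hw]

/-- **Job XP.** -/
theorem xp (h1 : S_XX) : S_XP := by
  intro a D ι _ _ u d c0 C0 P0 P α b hh κ hu hu0 hu1 hd hhd hhb hP0 hP hdeg0 hdeg hG0 hG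
  obtain ⟨c, hc⟩ : ∃ c : ℂ, c = 2 * Real.pi * Complex.I := ⟨_, rfl⟩
  have hc0 : c ≠ 0 := hc ▸ Complex.two_pi_I_ne_zero
  obtain ⟨K, hK⟩ : ∃ K : Fin a → ℂ, K = fun j => c * (κ j : ℂ) := ⟨_, rfl⟩
  obtain ⟨x, hx⟩ : ∃ x : ℂ → Fin a → ℂ, ∀ w j, x w j = (α j : ℂ) * w + b j + hh w j :=
    ⟨fun w j => _, fun _ _ => rfl⟩
  have hxd : ∀ j, DP c0 fun w => x w j := by
    intro j
    simp only [hx]
    exact dp_x (α j) (b j) (hhd j) (C0 := C0) fun w hw =>
      (norm_le_pi_norm (hh w) j).trans (hhb w hw)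
  have key : ∀ w, ∀ {d' : ℕ} {Q : MvPolynomial (Fin a) ℂ}, Q.totalDegree ≤ d' → ∀ Λ : ℕ,
      MvPolynomial.eval (pt α b hh w fun j => κ j * (Λ : ℤ)) Q =
        (Λ : ℂ) ^ d' * (c ^ d' * MvPolynomial.eval (fun j => (κ j : ℂ))
          (MvPolynomial.homogeneousComponent d' Q)) + ∑ l ∈ Finset.range d', (Λ : ℂ) ^ l *
            (∑ m ∈ Mon a d', C (MvPolynomial.coeff m Q) *
              ∏ j, (C (x w j) + C (K j) * X : ℂ[X]) ^ m j).coeff l := by
    intro w d' Q hQ Λ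
    have e1 : (pt α b hh w fun j => κ j * (Λ : ℤ)) = fun j => x w j + K j * (Λ : ℂ) := by
      funext j
      unfold pt
      rw [hx, hK, hc]
      push_cast
      ring
    have e2 : lp Q (x w) K = ∑ m ∈ Mon a d', C (MvPolynomial.coeff m Q) *
        ∏ j, (C (x w j) + C (K j) * X : ℂ[X]) ^ m j := by
      unfold lp
      exact eval2_fix (sub_mon hQ) _ _
    have e3 : MvPolynomial.eval K (MvPolynomial.homogeneousComponent d' Q) =
        c ^ d' * MvPolynomial.eval (fun j => (κ j : ℂ))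
          (MvPolynomial.homogeneousComponent d' Q) := by
      rw [hK]
      exact eval_hom Q c fun j => (κ j : ℂ)
    rw [e1, lp_val hQ, ← e2, e3]
  have hA : ∀ (d' : ℕ) (Q : ℂ → MvPolynomial (Fin a) ℂ), (∀ w ∈ LH c0, (Q w).totalDegree ≤ d') →
      (∀ m, Germ0 c0 (fun w => MvPolynomial.coeff m (Q w)) ∧
        DifferentiableOn ℂ (fun w => MvPolynomial.coeff m (Q w)) (LH c0)) →
      DifferentiableOn ℂ (fun w => c ^ d' * MvPolynomial.eval (fun j => (κ j : ℂ))
        (MvPolynomial.homogeneousComponent d' (Q w))) (LH c0) := by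
    intro d' Q hQ hc'
    have e1 := (dpx_lp d' hc' hxd K d').1
    refine e1.congr fun w hw => ?_
    have e2 : lp (Q w) (x w) K = ∑ m ∈ Mon a d', C (MvPolynomial.coeff m (Q w)) *
        ∏ j, (C (x w j) + C (K j) * X : ℂ[X]) ^ m j := by
      unfold lp
      exact eval2_fix (sub_mon (hQ w hw)) _ _
    beta_reduce
    rw [← e2, (deg_lp (hQ w hw) (x w) K).2, hK]
    exact (eval_hom (Q w) c fun j => (κ j : ℂ)).symm
  obtain ⟨w, hw, Λ, h2⟩ := h1 D ι u d c0
    (fun w => c ^ D * MvPolynomial.eval (fun j => (κ j : ℂ))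
      (MvPolynomial.homogeneousComponent D (P0 w)))
    (fun i w => c ^ d i * MvPolynomial.eval (fun j => (κ j : ℂ))
      (MvPolynomial.homogeneousComponent (d i) (P i w)))
    (fun l w => (∑ m ∈ Mon a D, C (MvPolynomial.coeff m (P0 w)) *
      ∏ j, (C (x w j) + C (K j) * X : ℂ[X]) ^ m j).coeff l)
    (fun i l w => (∑ m ∈ Mon a (d i), C (MvPolynomial.coeff m (P i w)) *
      ∏ j, (C (x w j) + C (K j) * X : ℂ[X]) ^ m j).coeff l)
    hu hu0 hu1 hd (hA D P0 hdeg0 hP0) (fun i => hA (d i) (P i) (hdeg i) (hP i))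
    (germ1_mul hG0 (pow_ne_zero _ hc0)) (fun i => germ1_mul (hG i) (pow_ne_zero _ hc0))
    (fun l => dpx_lp D hP0 hxd K l) (fun i l => dpx_lp (d i) (hP i) hxd K l)
  refine ⟨w, hw, fun j => κ j * (Λ : ℤ), ?_⟩
  refine Eq.trans ?_ h2
  refine congrArg₂ (· + ·) (key w (hdeg0 w hw) Λ) (Finset.sum_congr rfl fun i _ => ?_)
  exact congrArg (fun z => Complex.exp ((u i).eval (Complex.exp (-w))) * z)
    (key w (hdeg i w hw) Λ)

end Pool.Agent.Q211.MX
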